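import Mathlib

namespace Pool.Agent.Results.MP_bed60c_co.Cex

open SimpleGraph Filter

variable {V W : Type} {k : ℕ}

/-- the join of two graphs -/
def join (G : SimpleGraph V) (J : SimpleGraph W) : SimpleGraph (V ⊕ W) where
  Adj
    | .inl a, .inl b => G.Adj a b
    | .inr a, .inr b => J.Adj a b
    | .inl _, .inr _ => True
    | .inr _, .inl _ => True
  symm := ⟨by rintro (_ | _) (_ | _) h <;> first | exact h | exact h.symm⟩
  loopless := ⟨by rintro (_ | _) h <;> exact h.ne rfl⟩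

/-- least size of a small common neighbourhood set -/
noncomputable def Ups (G : SimpleGraph V) : ℕ :=
  sInf {m | ∃ S : Finset V, S.Nonempty ∧ S.card = m ∧ {w | ∀ v ∈ S, G.Adj v w}.ncard ≤ S.card}

open Classical in
/-- what cops standing at `c` see of a robber at `v` -/
noncomputable def obs (G : SimpleGraph V) (c : Fin k → V) (v : V) : Option V :=
  if ∀ i, G.Adj (c i) v then none else some v

/-- cop positions and the list of observations when the robber has reached `r t` -/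
noncomputable def play (G : SimpleGraph V) (c0 : Fin k → V)
    (σ : List (Option V) → (Fin k → V) → Fin k → V) (r : ℕ → V) :
    ℕ → (Fin k → V) × List (Option V)
  | 0 => (c0, [obs G c0 (r 0)])
  | t + 1 =>
    let p := play G c0 σ r t
    let c := σ p.2 p.1
    (c, obs G c (r (t + 1)) :: obs G c (r t) :: p.2)

def CopsWin (G : SimpleGraph V) (k : ℕ) : Prop :=
  ∃ (c0 : Fin k → V) (σ : List (Option V) → (Fin k → V) → Fin k → V),
    (∀ h c i, σ h c i = c i ∨ G.Adj (c i) (σ h c i)) ∧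
    ∀ r : ℕ → V, (∀ t, r (t + 1) = r t ∨ G.Adj (r t) (r (t + 1))) →
      ∃ t i, (play G c0 σ r t).1 i = r t ∨ (play G c0 σ r (t + 1)).1 i = r t

noncomputable def cH (G : SimpleGraph V) : ℕ := sInf {k | CopsWin G k}

lemma konig [Finite V] (R : ℕ → Set V) (step : ℕ → V → V → Prop) (hne : ∀ t, (R t).Nonempty)
    (hp : ∀ t, ∀ w ∈ R (t + 1), ∃ v ∈ R t, step t v w) :
    ∃ r : ℕ → V, ∀ t, r t ∈ R t ∧ step t (r t) (r (t + 1)) := by
  classical
  have h1 : ∀ T, ∀ w ∈ R T, ∃ f : ℕ → V, f T = w ∧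
      ∀ t < T, f t ∈ R t ∧ step t (f t) (f (t + 1)) := by
    intro T
    induction T with
    | zero => intro w _; exact ⟨fun _ => w, rfl, by simp⟩
    | succ T ih =>
      intro w hw
      obtain ⟨v, hv, hs⟩ := hp T w hw
      obtain ⟨f, hf, hf2⟩ := ih v hv
      refine ⟨Function.update f (T + 1) w, by simp, fun t ht => ?_⟩
      rw [Function.update_of_ne (by omega)]
      by_cases h : t = T
      · subst h; simp [hf, hv, hs]
      · rw [Function.update_of_ne (by omega)]; exact hf2 t (by omega)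
  have h2 : ∀ T, ∃ f : ℕ → V, ∀ t < T, f t ∈ R t ∧ step t (f t) (f (t + 1)) := fun T => by
    obtain ⟨w, hw⟩ := hne T
    obtain ⟨f, _, hf⟩ := h1 T w hw
    exact ⟨f, hf⟩
  choose F hF using h2
  have h3 : ∀ t, ∃ v, {T | F T t = v} ∈ hyperfilter ℕ := fun t => by
    obtain ⟨v, hv⟩ := Ultrafilter.eq_pure_of_finite ((hyperfilter ℕ).map (fun T => F T t))
    refine ⟨v, ?_⟩
    have : ({v} : Set V) ∈ (hyperfilter ℕ).map (fun T => F T t) := by rw [hv]; simp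
    exact this
  choose r hr using h3
  refine ⟨r, fun t => ?_⟩
  have h4 : {T | t < T} ∈ hyperfilter ℕ :=
    Nat.hyperfilter_le_atTop (eventually_gt_atTop t)
  obtain ⟨T, ⟨e1, e2⟩, e3⟩ := Ultrafilter.nonempty_of_mem
    (inter_mem (inter_mem (hr t) (hr (t + 1))) h4)
  rw [← show F T t = r t from e1, ← show F T (t + 1) = r (t + 1) from e2]
  exact hF T t e3

lemma evade [Finite V] (G : SimpleGraph V) (L : (Fin k → V) → Set V → Prop)
    (h0 : ∀ c, ∃ R, L c R)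
    (h1 : ∀ c R, L c R → ∃ o, R.Nonempty ∧ ∀ v ∈ R, obs G c v = o ∧ ∀ i, c i ≠ v)
    (h2 : ∀ c R c', L c R → (∀ i, c' i = c i ∨ G.Adj (c i) (c' i)) → ∃ R' o, L c' R' ∧
      ∀ w ∈ R', ∃ v ∈ R, (w = v ∨ G.Adj v w) ∧ obs G c' v = o ∧ ∀ i, c' i ≠ v) :
    ¬ CopsWin G k := by
  rintro ⟨c0, σ, hσ, hw⟩
  obtain ⟨R0, hR0⟩ := h0 c0
  choose! O hO using h1
  choose! N P hN using h2
  let st : ℕ → (Fin k → V) × List (Option V) × Set V := fun t => Nat.rec (c0, [O c0 R0], R0)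
    (fun _ x => (σ x.2.1 x.1, O (σ x.2.1 x.1) (N x.1 x.2.2 (σ x.2.1 x.1)) ::
      P x.1 x.2.2 (σ x.2.1 x.1) :: x.2.1, N x.1 x.2.2 (σ x.2.1 x.1))) t
  have hL : ∀ t, L (st t).1 (st t).2.2 := fun t => by
    induction t with
    | zero => exact hR0
    | succ t ih => exact (hN _ _ _ ih (hσ _ _)).1
  obtain ⟨r, hr⟩ := konig (fun t => (st t).2.2) (fun t v w => (w = v ∨ G.Adj v w) ∧
    obs G (st (t + 1)).1 v = P (st t).1 (st t).2.2 (st (t + 1)).1 ∧ ∀ i, (st (t + 1)).1 i ≠ v)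
    (fun t => (hO _ _ (hL t)).1) (fun t => (hN _ _ _ (hL t) (hσ _ _)).2)
  have hp : ∀ t, play G c0 σ r t = ((st t).1, (st t).2.1) := fun t => by
    induction t with
    | zero =>
      have := ((hO _ _ (hL 0)).2 _ (hr 0).1).1
      simp only [play]
      exact congrArg (fun o => (c0, [o])) this
    | succ t ih =>
      have e1 := ((hO _ _ (hL (t + 1))).2 _ (hr (t + 1)).1).1
      have e2 := (hr t).2.2.1
      simp only [play, ih]
      exact congrArg₂ (fun o o' => ((st (t + 1)).1, o :: o' :: (st t).2.1)) e1 e2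
  obtain ⟨t, i, h | h⟩ := hw r (fun t => (hr t).2.1)
  · rw [hp] at h
    exact ((hO _ _ (hL t)).2 _ (hr t).1).2 i h
  · rw [hp] at h
    exact (hr t).2.2.2 i h

def G0 : SimpleGraph (Fin 7) := fromRel (fun a b => (a, b) ∈
  [(0, 1), (1, 2), (0, 3), (1, 3), (2, 4), (3, 4), (0, 5), (2, 5), (4, 5), (1, 6), (2, 6), (3, 6),
   (4, 6)])

instance : DecidableRel G0.Adj := by unfold G0; infer_instance

abbrev U := Fin 7 ⊕ Fin 2

abbrev H : SimpleGraph U := join G0 ⊤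

instance : DecidableRel H.Adj := fun a b => by
  cases a <;> cases b <;> simp only [join] <;> infer_instance

def ix : U → ℕ
  | .inl a => a
  | .inr b => 7 + b

def adjN (a b : ℕ) : Bool := ([426, 461, 498, 467, 492, 405, 414, 383, 255].getD a 0).testBit b

lemma adj_iff : ∀ a b : U, H.Adj a b ↔ adjN (ix a) (ix b) = true := by decide +kernel

lemma ix_inj : ∀ a b : U, ix a = ix b → a = b := by decide +kernel

lemma ix_surj : ∀ n < 9, ∃ a : U, ix a = n := by decide +kernel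

lemma ix_lt : ∀ a : U, ix a < 9 := by decide +kernel

def tabL : List (List (List (List ℕ))) :=
  [
   [[[6]], [[4]], [[5,7,8], [1,7,8]], [[2]], [[5,7,8], [3,7,8]], [[6]], [[1,7,8], [3,7,8]], [[1,5,8], [3,5,8], [1,3,8]], [[1,5,7], [3,5,7], [1,3,7]]],
   [[[4]], [[4]], [[6,7,8]], [[6,7,8], [0,7,8]], [[2,7,8], [3,7,8]], [[0,7,8], [2,7,8]], [[2,7,8], [3,7,8]], [[2,6,8], [0,2,8], [0,3,8]], [[2,6,7], [0,2,7], [0,3,7]]],
   [[[5,7,8], [1,7,8]], [[6,7,8]], [[3]], [[1,7,8], [4,7,8]], [[6,7,8], [5,7,8]], [[3]], [[1,7,8], [4,7,8]], [[1,5,8], [1,6,8], [4,5,8]], [[1,5,7], [1,6,7], [4,5,7]]],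
   [[[2]], [[6,7,8], [0,7,8]], [[1,7,8], [4,7,8]], [[2]], [[6,7,8]], [[0,7,8], [4,7,8]], [[1,7,8], [4,7,8]], [[0,1,8], [4,6,8], [0,4,8]], [[0,1,7], [4,6,7], [0,4,7]]],
   [[[5,7,8], [3,7,8]], [[2,7,8], [3,7,8]], [[6,7,8], [5,7,8]], [[6,7,8]], [[1]], [[1]], [[2,7,8], [3,7,8]], [[2,5,8], [3,5,8], [3,6,8]], [[2,5,7], [3,5,7], [3,6,7]]],
   [[[6]], [[0,7,8], [2,7,8]], [[3]], [[0,7,8], [4,7,8]], [[1]], [[6]], [[2,7,8], [4,7,8]], [[0,2,8], [0,4,8], [2,4,8]], [[0,2,7], [0,4,7], [2,4,7]]],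
   [[[1,7,8], [3,7,8]], [[2,7,8], [3,7,8]], [[1,7,8], [4,7,8]], [[1,7,8], [4,7,8]], [[2,7,8], [3,7,8]], [[2,7,8], [4,7,8]], [[1,2,3], [1,2,4], [3,4,7]], [[1,3,8], [2,4,8]], [[1,3,7], [2,4,7]]],
   [[[1,5,8], [3,5,8], [1,3,8]], [[2,6,8], [0,2,8], [0,3,8]], [[1,5,8], [1,6,8], [4,5,8]], [[0,1,8], [4,6,8], [0,4,8]], [[2,5,8], [3,5,8], [3,6,8]], [[0,2,8], [0,4,8], [2,4,8]], [[1,3,8], [2,4,8]], [[3,6,8], [5,6,8]], [[1,3,5], [2,4,5], [2,3,6], [3,4,6]]],
   [[[1,5,7], [3,5,7], [1,3,7]], [[2,6,7], [0,2,7], [0,3,7]], [[1,5,7], [1,6,7], [4,5,7]], [[0,1,7], [4,6,7], [0,4,7]], [[2,5,7], [3,5,7], [3,6,7]], [[0,2,7], [0,4,7], [2,4,7]], [[1,2,3], [2,4,7], [1,3,4]], [[1,3,5], [2,4,5], [2,3,6], [3,4,6]], [[3,6,7], [5,6,7]]]]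

def tab (a b : ℕ) : List (List ℕ) := (tabL.getD a []).getD b []

def ob (a b v : ℕ) : ℕ := if adjN a v && adjN b v then 9 else v

lemma c0 : ∀ a < 9, ∀ b < 9, tab a b ≠ [] := by decide +kernel

def Q1 (a b : ℕ) (R : List ℕ) (o : ℕ) : Prop :=
  R ≠ [] ∧ ∀ v ∈ R, v < 9 ∧ ob a b v = o ∧ a ≠ v ∧ b ≠ v

instance (a b : ℕ) (R : List ℕ) (o : ℕ) : Decidable (Q1 a b R o) := by
  unfold Q1; infer_instance

def Q2 (a b : ℕ) (R R' : List ℕ) (o : ℕ) : Prop :=
  ∀ w ∈ R', ∃ v ∈ R, (w = v ∨ adjN v w = true) ∧ ob a b v = o ∧ a ≠ v ∧ b ≠ v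

instance (a b : ℕ) (R R' : List ℕ) (o : ℕ) : Decidable (Q2 a b R R' o) := by
  unfold Q2; infer_instance

def Q3 (a b : ℕ) (R : List ℕ) : Prop := ∃ R' ∈ tab a b, ∃ o < 10, Q2 a b R R' o

instance (a b : ℕ) (R : List ℕ) : Decidable (Q3 a b R) := by
  unfold Q3; infer_instance

lemma c1 : ∀ a < 9, ∀ b < 9, ∀ R ∈ tab a b, ∃ o < 10, Q1 a b R o := by decide +kernel

def Q4 (b a' : ℕ) (R : List ℕ) : Prop := ∀ b' < 9, (b' = b ∨ adjN b b' = true) → Q3 a' b' R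

instance (a b : ℕ) (R : List ℕ) : Decidable (Q4 a b R) := by
  unfold Q4; infer_instance

lemma c2 : ∀ a < 9, ∀ b < 9, ∀ R ∈ tab a b, ∀ a' < 9, (a' = a ∨ adjN a a' = true) →
    Q4 b a' R := by
  decide +kernel

lemma lose (i j : Fin k) (hk : ∀ l, l = i ∨ l = j) : ¬ CopsWin H k := by
  classical
  let dec : ℕ → Option U := fun o => if h : o < 9 then some (ix_surj o h).choose else none
  have hob : ∀ (c : Fin k → U) (v : U), obs H c v = dec (ob (ix (c i)) (ix (c j)) (ix v)) := by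
    intro c v
    by_cases h : ∀ l, H.Adj (c l) v
    · have e1 := (adj_iff _ _).1 (h i)
      have e2 := (adj_iff _ _).1 (h j)
      simp [obs, h, ob, e1, e2, dec]
    · have : ¬ (adjN (ix (c i)) (ix v) && adjN (ix (c j)) (ix v)) = true := by
        intro h'
        rw [Bool.and_eq_true, ← adj_iff, ← adj_iff] at h'
        exact h fun l => by rcases hk l with rfl | rfl; exacts [h'.1, h'.2]
      simp only [obs, h, ob, this, dec, if_false, ix_lt, dif_pos, Bool.false_eq_true]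
      exact congrArg some (ix_inj _ _ (ix_surj _ (ix_lt v)).choose_spec.symm)
  have hne : ∀ (c : Fin k → U) (v : U), ix (c i) ≠ ix v → ix (c j) ≠ ix v → ∀ l, c l ≠ v := by
    intro c v e1 e2 l h
    rcases hk l with rfl | rfl
    · exact e1 (by rw [h])
    · exact e2 (by rw [h])
  refine evade H (fun c R => ∃ l ∈ tab (ix (c i)) (ix (c j)), R = {v | ix v ∈ l}) ?_ ?_ ?_
  · intro c
    obtain ⟨l, hl⟩ := List.exists_mem_of_ne_nil _ (c0 _ (ix_lt (c i)) _ (ix_lt (c j)))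
    exact ⟨_, l, hl, rfl⟩
  · rintro c R ⟨l, hl, rfl⟩
    obtain ⟨o, _, h1, h2⟩ := c1 _ (ix_lt _) _ (ix_lt _) l hl
    obtain ⟨x, hx⟩ := List.exists_mem_of_ne_nil _ h1
    obtain ⟨y, rfl⟩ := ix_surj x (h2 x hx).1
    refine ⟨dec o, ⟨y, hx⟩, fun v hv => ?_⟩
    obtain ⟨_, e1, e2, e3⟩ := h2 _ hv
    exact ⟨by rw [hob, e1], hne c v e2 e3⟩
  · rintro c R c' ⟨l, hl, rfl⟩ hm
    have m : ∀ t, ix (c' t) = ix (c t) ∨ adjN (ix (c t)) (ix (c' t)) = true := fun t =>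
      (hm t).imp (fun h => by rw [h]) (adj_iff _ _).1
    obtain ⟨l', hl', o, _, h⟩ := c2 _ (ix_lt _) _ (ix_lt _) l hl _ (ix_lt _) (m i) _ (ix_lt _) (m j)
    refine ⟨_, dec o, ⟨l', hl', rfl⟩, fun w hw => ?_⟩
    obtain ⟨x, hx, e0, e1, e2, e3⟩ := h _ hw
    obtain ⟨_, _, _, h2⟩ := c1 _ (ix_lt _) _ (ix_lt _) l hl
    obtain ⟨v, rfl⟩ := ix_surj x (h2 x hx).1
    exact ⟨v, hx, e0.imp (ix_inj _ _) (adj_iff _ _).2, by rw [hob, e1], hne c' v e2 e3⟩

theorem result : ¬ ∀ (V W : Type) [Fintype V] [Fintype W] (G : SimpleGraph V) (J : SimpleGraph W),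
    G.Connected → J.Connected → cH (join G J) ≤ Ups (join G J) := by
  intro h
  have h1 := h _ _ G0 (⊤ : SimpleGraph (Fin 2)) (by decide +kernel) (by decide +kernel)
  have h2 : Ups H ≤ 2 := by
    refine Nat.sInf_le ⟨{.inl 0, .inl 5}, by simp, by decide, ?_⟩
    have : {w | ∀ v ∈ ({.inl 0, .inl 5} : Finset U), H.Adj v w} =
        (({.inr 0, .inr 1} : Finset U) : Set U) := by
      ext w
      simp only [Set.mem_ofPred_eq, Finset.mem_coe]
      revert w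
      decide +kernel
    rw [this, Set.ncard_coe_finset]
    decide
  have h3 : CopsWin H (Fintype.card U) := by
    refine ⟨(Fintype.equivFin U).symm, fun _ c => c, fun _ _ _ => Or.inl rfl, fun r _ => ?_⟩
    exact ⟨0, Fintype.equivFin U (r 0), Or.inl (by simp [play])⟩
  have h4 : CopsWin H (cH H) := Nat.sInf_mem (s := {k | CopsWin H k}) ⟨_, h3⟩
  have h5 : cH H ≤ 2 := h1.trans h2
  generalize cH H = m at h4 h5
  interval_cases m
  · obtain ⟨c, σ, _, hw⟩ := h4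
    obtain ⟨_, i, _⟩ := hw (fun _ => .inr 0) (fun _ => Or.inl rfl)
    exact i.elim0
  · exact lose 0 0 (by decide) h4
  · exact lose 0 1 (by decide) h4

end Pool.Agent.Results.MP_bed60c_co.Cex
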